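import Pool.Agent.Helper63.NW.XB
import Pool.Agent.Helper61.NW.Goals

set_option autoImplicit false

namespace Pool.Agent.Helper63.NW

open Pool.Agent.Helper52.Wq2 Pool.Agent.Helper61.NW

universe u

variable {Γ : Type u} [Group Γ] {S : Set Γ} {h : Γ → ℤ} {s : Γ} {H n m : ℕ}

theorem h_one (hT : Two S h s H n m) : h 1 = 0 := by
  have := hT.hom 1 1
  rw [mul_one] at this
  omega

theorem h_inv (hT : Two S h s H n m) (g : Γ) : h g⁻¹ = - h g := by
  have := hT.hom g g⁻¹
  rw [mul_inv_cancel, h_one hT] at this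
  omega

theorem h_zpow (hT : Two S h s H n m) (x : ℤ) : h (s ^ x) = x * H := by
  have hn : ∀ k : ℕ, h (s ^ k) = k * H := by
    intro k
    induction k with
    | zero => simp [h_one hT]
    | succ k ih =>
      rw [pow_succ, hT.hom, ih, hT.Hs]
      push_cast
      ring
  rcases Int.eq_nat_or_neg x with ⟨k, rfl | rfl⟩
  · rw [zpow_natCast, hn]
  · rw [zpow_neg, zpow_natCast, h_inv hT, hn]
    ring

/-- A crossing between two lines. -/
def XX (S : Set Γ) (h : Γ → ℤ) (s : Γ) (H : ℕ) (u v : Γ ⧸ Subgroup.zpowers s) : Prop :=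
  ∃ a b : Γ, (a : Γ ⧸ Subgroup.zpowers s) = u ∧ (b : Γ ⧸ Subgroup.zpowers s) = v ∧
    h b = h a + H ∧ a⁻¹ * b ∈ S ∧ (a * s)⁻¹ * (b * s⁻¹) ∈ S

theorem coe_mul_zpow (a : Γ) (x : ℤ) :
    ((a * s ^ x : Γ) : Γ ⧸ Subgroup.zpowers s) = (a : Γ ⧸ Subgroup.zpowers s) := by
  refine (QuotientGroup.eq.2 ?_).symm
  rw [inv_mul_cancel_left]
  exact ⟨x, rfl⟩

theorem XX.symm (hT : Two S h s H n m) {u v : Γ ⧸ Subgroup.zpowers s} (hx : XX S h s H u v) :
    XX S h s H v u := by
  obtain ⟨a, b, ha, hb, h1, h2, h3⟩ := hx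
  refine ⟨b * s⁻¹, a * s, ?_, ?_, ?_, ?_, ?_⟩
  · rw [← hb, ← zpow_neg_one, coe_mul_zpow]
  · rw [← ha]
    have := coe_mul_zpow (s := s) a 1
    rwa [zpow_one] at this
  · rw [hT.hom, hT.hom, h_inv hT, hT.Hs]
    omega
  · have := hT.gen.2.1 _ h3
    rwa [mul_inv_rev, inv_inv] at this
  · have := hT.gen.2.1 _ h2
    rw [mul_inv_rev, inv_inv] at this
    have e : (b * s⁻¹ * s)⁻¹ * (a * s * s⁻¹) = b⁻¹ * a := by group
    rw [e]
    exact this

theorem XX.smul {u v : Γ ⧸ Subgroup.zpowers s} (hT : Two S h s H n m)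
    (hx : XX S h s H u v) (g : Γ) : XX S h s H (g • u) (g • v) := by
  obtain ⟨a, b, ha, hb, h1, h2, h3⟩ := hx
  refine ⟨g * a, g * b, ?_, ?_, ?_, ?_, ?_⟩
  · rw [← ha]; rfl
  · rw [← hb]; rfl
  · rw [hT.hom, hT.hom, h1]; ring
  · have e : (g * a)⁻¹ * (g * b) = a⁻¹ * b := by group
    rw [e]; exact h2
  · have e : (g * a * s)⁻¹ * (g * b * s⁻¹) = (a * s)⁻¹ * (b * s⁻¹) := by group
    rw [e]; exact h3

theorem XX.adj {e : (Γ ⧸ Subgroup.zpowers s) ≃ ZMod n} (he : IsCyc S s n e)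
    {u v : Γ ⧸ Subgroup.zpowers s} (hx : XX S h s H u v) (huv : u ≠ v) :
    e v = e u + 1 ∨ e u = e v + 1 := by
  obtain ⟨a, b, ha, hb, h1, h2, h3⟩ := hx
  refine (he u v).1 ?_
  unfold Ln
  rw [SimpleGraph.fromRel_adj]
  refine ⟨huv, Or.inl ⟨a, a⁻¹ * b, h2, ha, ?_⟩⟩
  rw [mul_inv_cancel_left]
  exact hb

theorem shift_exists (hT : Two S h s H n m) (hn : 3 ≤ n)
    {e : (Γ ⧸ Subgroup.zpowers s) ≃ ZMod n} (he : IsCyc S s n e)
    (hc : ∃ j, Crs S h s H n e j) :
    ∃ c : ZMod n, ∀ i : ℕ, XX S h s H (e.symm (c + (2 * i : ℕ))) (e.symm (c + (2 * i + 1 : ℕ))) := by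
  haveI : Fact (1 < n) := ⟨by omega⟩
  have h10 : (1 : ZMod n) ≠ 0 := one_ne_zero
  have h20 : (2 : ZMod n) ≠ 0 := by
    intro h0
    have h1 : ((2 : ℕ) : ZMod n) = 0 := by exact_mod_cast h0
    rw [ZMod.natCast_eq_zero_iff] at h1
    exact absurd (Nat.le_of_dvd (by omega) h1) (by omega)
  let P : ZMod n → Prop := fun j => XX S h s H (e.symm j) (e.symm (j + 1))
  have ne1 : ∀ j : ZMod n, e.symm j ≠ e.symm (j + 1) := by
    intro j hj
    have := e.symm.injective hj
    rw [left_eq_add] at this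
    exact h10 this
  obtain ⟨j1, hj1⟩ : ∃ j, P j := by
    obtain ⟨j, a, b, ha, hb, h1, h2, h3⟩ := hc
    refine ⟨j, a, b, ?_, ?_, h1, h2, h3⟩
    · rw [← ha, Equiv.symm_apply_apply]
    · rw [← hb, Equiv.symm_apply_apply]
  have tp : ∀ (j j' k : ZMod n), XX S h s H (e.symm j) (e.symm j') → j ≠ j' → ∀ g : Γ,
      g • (e.symm j) = e.symm k → XX S h s H (e.symm k) (g • (e.symm j')) ∧
        (e (g • (e.symm j')) = k + 1 ∨ e (g • (e.symm j')) = k - 1) := by
    intro j j' k hx hne g hg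
    have h1 := hx.smul hT g
    have h2 : g • (e.symm j) ≠ g • (e.symm j') := by
      intro h
      have := MulAction.injective g h
      exact hne (e.symm.injective this)
    have h3 := h1.adj he h2
    rw [hg] at h1 h3
    refine ⟨h1, ?_⟩
    rw [Equiv.apply_symm_apply] at h3
    rcases h3 with h3 | h3
    · exact Or.inl h3
    · right
      rw [h3]; ring
  have fin1 : ∀ k v, XX S h s H (e.symm k) v → e v = k + 1 → P k := by
    intro k v hx hv
    show XX S h s H (e.symm k) (e.symm (k + 1))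
    rw [← hv, Equiv.symm_apply_apply]
    exact hx
  have fin2 : ∀ k v, XX S h s H (e.symm k) v → e v = k - 1 → P (k - 1) := by
    intro k v hx hv
    show XX S h s H (e.symm (k - 1)) (e.symm (k - 1 + 1))
    rw [sub_add_cancel, ← hv, Equiv.symm_apply_apply]
    exact hx.symm hT
  have cl1 : ∀ k, P k ∨ P (k - 1) := by
    intro k
    obtain ⟨g, hg⟩ := MulAction.exists_smul_eq Γ (e.symm j1) (e.symm k)
    obtain ⟨h1, h2⟩ := tp j1 (j1 + 1) k hj1 (fun h => ne1 j1 (by rw [← h])) g hg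
    rcases h2 with h2 | h2
    · exact Or.inl (fin1 k _ h1 h2)
    · exact Or.inr (fin2 k _ h1 h2)
  have cl2 : ∀ j, P j → P (j - 1) → ∀ k, P k ∧ P (k - 1) := by
    intro j hj hj' k
    obtain ⟨g, hg⟩ := MulAction.exists_smul_eq Γ (e.symm j) (e.symm k)
    have hj'' : XX S h s H (e.symm j) (e.symm (j - 1)) := by
      have : XX S h s H (e.symm (j - 1)) (e.symm (j - 1 + 1)) := hj'
      rw [sub_add_cancel] at this
      exact this.symm hT
    have n1 : j ≠ j + 1 := by
      intro h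
      rw [left_eq_add] at h
      exact h10 h
    have n2 : j ≠ j - 1 := by
      intro h
      apply h10
      have h2 : (1 : ZMod n) = j - (j - 1) := by ring
      rw [h2, ← h, sub_self]
    obtain ⟨a1, a2⟩ := tp j (j + 1) k hj n1 g hg
    obtain ⟨b1, b2⟩ := tp j (j - 1) k hj'' n2 g hg
    have hne : e (g • (e.symm (j + 1))) ≠ e (g • (e.symm (j - 1))) := by
      intro h
      have h1 := MulAction.injective g (e.injective h)
      have h2 := e.symm.injective h1
      apply h20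
      have h3 : (2 : ZMod n) = (j + 1) - (j - 1) := by ring
      rw [h3, h2, sub_self]
    rcases a2 with a2 | a2 <;> rcases b2 with b2 | b2
    · exact absurd (a2.trans b2.symm) hne
    · exact ⟨fin1 k _ a1 a2, fin2 k _ b1 b2⟩
    · exact ⟨fin1 k _ b1 b2, fin2 k _ a1 a2⟩
    · exact absurd (a2.trans b2.symm) hne
  have main : ∃ c : ZMod n, ∀ i : ℕ, P (c + (2 * i : ℕ)) := by
    by_cases hall : ∀ j, P j
    · exact ⟨0, fun i => hall _⟩
    · obtain ⟨j0, hj0⟩ := not_forall.1 hall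
      have hno : ∀ j, ¬ (P j ∧ P (j - 1)) := fun j hj => hj0 (cl2 j hj.1 hj.2 j0).1
      refine ⟨j0 + 1, ?_⟩
      intro i
      induction i with
      | zero =>
        rcases cl1 (j0 + 1) with h1 | h1
        · rw [mul_zero, Nat.cast_zero, add_zero]
          exact h1
        · rw [add_sub_cancel_right] at h1
          exact absurd h1 hj0
      | succ i ih =>
        have e1 : j0 + 1 + ((2 * (i + 1) : ℕ) : ZMod n) = j0 + 1 + ((2 * i : ℕ) : ZMod n) + 1 + 1 := by
          push_cast; ring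
        rw [e1]
        have h1 : ¬ P (j0 + 1 + ((2 * i : ℕ) : ZMod n) + 1) := by
          intro hP
          apply hno _ ⟨hP, ?_⟩
          rw [add_sub_cancel_right]
          exact ih
        rcases cl1 (j0 + 1 + ((2 * i : ℕ) : ZMod n) + 1 + 1) with h2 | h2
        · exact h2
        · rw [add_sub_cancel_right] at h2
          exact absurd h2 h1
  obtain ⟨c, hc'⟩ := main
  refine ⟨c, fun i => ?_⟩
  have := hc' i
  have e2 : c + ((2 * i + 1 : ℕ) : ZMod n) = c + ((2 * i : ℕ) : ZMod n) + 1 := by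
    push_cast; ring
  rw [e2]
  exact this

theorem rep_exists (hT : Two S h s H n m) (u : Γ ⧸ Subgroup.zpowers s) :
    ∃ g : Γ, (g : Γ ⧸ Subgroup.zpowers s) = u ∧ 0 ≤ h g ∧ h g < H := by
  have hH : (0 : ℤ) < H := by exact_mod_cast hT.Hpos
  obtain ⟨g, rfl⟩ := QuotientGroup.mk_surjective u
  refine ⟨g * s ^ (-(h g / H)), coe_mul_zpow _ _, ?_, ?_⟩
  · rw [hT.hom, h_zpow hT]
    have := Int.emod_nonneg (h g) hH.ne'
    have h2 := Int.emod_add_mul_ediv (h g) H
    have e : -(h g / H) * (H : ℤ) = - (H * (h g / H)) := by ring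
    rw [e]; omega
  · rw [hT.hom, h_zpow hT]
    have := Int.emod_lt_of_pos (h g) hH
    have h2 := Int.emod_add_mul_ediv (h g) H
    have e : -(h g / H) * (H : ℤ) = - (H * (h g / H)) := by ring
    rw [e]; omega

theorem crx : CrxStmt.{u} := by
  intro Γ _ S h s H n m hT hn e he hc q hq
  refine (star_mono q).trans ((star_xg (Q := q + 1) (by omega)).trans ?_)
  have hH : (0 : ℤ) < H := by exact_mod_cast hT.Hpos
  have hm : (0 : ℤ) < m := by exact_mod_cast hT.mpos
  obtain ⟨c, hcr⟩ := shift_exists hT hn he hc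
  choose r hr1 hr2 hr3 using fun j : ℕ => rep_exists hT (e.symm (c + (j : ℕ)))
  let f : ℕ → ℤ → Γ := fun j x => r j * s ^ x
  have fh : ∀ j x, h (f j x) = h (r j) + x * H := by
    intro j x
    show h (r j * s ^ x) = _
    rw [hT.hom, h_zpow hT]
  have fco : ∀ j x, ((f j x : Γ) : Γ ⧸ Subgroup.zpowers s) = e.symm (c + (j : ℕ)) := by
    intro j x
    rw [← hr1 j]
    exact coe_mul_zpow _ _
  have frep : ∀ (j : ℕ) (g : Γ), (g : Γ ⧸ Subgroup.zpowers s) = e.symm (c + (j : ℕ)) →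
      ∃ x : ℤ, g = f j x := by
    intro j g hg
    rw [← hr1 j] at hg
    obtain ⟨x, hx⟩ := QuotientGroup.eq.1 hg.symm
    refine ⟨x, ?_⟩
    show g = r j * s ^ x
    have hx' : s ^ x = (r j)⁻¹ * g := hx
    rw [hx', mul_inv_cancel_left]
  have cenk : ∀ (k : ℤ) (g : Γ), g * s ^ ((m : ℤ) * k) = s ^ ((m : ℤ) * k) * g := by
    intro k g
    have h1 : Commute g (s ^ m) := hT.cen g
    have h2 := h1.zpow_right k
    rw [← zpow_natCast, ← zpow_mul] at h2
    exact h2
  have fsh : ∀ j x (k : ℤ), f j (x + m * k) = s ^ ((m : ℤ) * k) * f j x := by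
    intro j x k
    show r j * s ^ (x + m * k) = s ^ ((m : ℤ) * k) * (r j * s ^ x)
    rw [zpow_add, ← mul_assoc, cenk]
  have lft : ∀ (z a b : Γ), (cay S).Adj a b → (cay S).Adj (z * a) (z * b) := by
    intro z a b hab
    rw [cay_adj hT.gen] at hab ⊢
    have e1 : (z * a)⁻¹ * (z * b) = a⁻¹ * b := by group
    rw [e1]
    exact hab
  have fadj : ∀ (i j : ℕ) (x y : ℤ), (cay S).Adj (f i x) (f j y) → ∀ k : ℤ,
      (cay S).Adj (f i (x + m * k)) (f j (y + m * k)) := by
    intro i j x y hab k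
    rw [fsh, fsh]
    exact lft _ _ _ hab
  have hcon : ∀ j : ℕ, ∃ a d : ℤ, -1 ≤ d ∧ d ≤ 1 ∧ (cay S).Adj (f j a) (f (j + 1) (a + d)) := by
    intro j
    have hadj : (Ln S s).Adj (e.symm (c + (j : ℕ))) (e.symm (c + ((j + 1 : ℕ) : ZMod n))) := by
      rw [he]
      left
      rw [Equiv.apply_symm_apply, Equiv.apply_symm_apply]
      push_cast
      ring
    have key : ∀ p q : Γ, (p : Γ ⧸ Subgroup.zpowers s) = e.symm (c + (j : ℕ)) →
        (q : Γ ⧸ Subgroup.zpowers s) = e.symm (c + ((j + 1 : ℕ) : ZMod n)) →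
        (cay S).Adj p q → -(H : ℤ) ≤ h q - h p → h q - h p ≤ H →
        ∃ a d : ℤ, -1 ≤ d ∧ d ≤ 1 ∧ (cay S).Adj (f j a) (f (j + 1) (a + d)) := by
      intro p q hp hq hpq hl hu
      obtain ⟨x, rfl⟩ := frep j p hp
      obtain ⟨y, rfl⟩ := frep (j + 1) q hq
      rw [fh, fh] at hl hu
      have b1 := hr2 j
      have b2 := hr3 j
      have b3 := hr2 (j + 1)
      have b4 := hr3 (j + 1)
      refine ⟨x, y - x, ?_, ?_, ?_⟩
      · by_contra hlt
        have h1 : (y - x) * (H : ℤ) ≤ (-2) * H :=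
          mul_le_mul_of_nonneg_right (by omega) hH.le
        have h2 : (y - x) * (H : ℤ) = y * H - x * H := by ring
        omega
      · by_contra hlt
        have h1 : 2 * (H : ℤ) ≤ (y - x) * H :=
          mul_le_mul_of_nonneg_right (by omega) hH.le
        have h2 : (y - x) * (H : ℤ) = y * H - x * H := by ring
        omega
      · rw [add_sub_cancel]
        exact hpq
    unfold Ln at hadj
    rw [SimpleGraph.fromRel_adj] at hadj
    rcases hadj.2 with ⟨g, t, ht, hg1, hg2⟩ | ⟨g, t, ht, hg1, hg2⟩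
    · have hb := abs_le.1 (hT.max t ht)
      refine key g (g * t) hg1 hg2 (cay_adj_mul hT.gen g ht) ?_ ?_
      · rw [hT.hom]; omega
      · rw [hT.hom]; omega
    · have hb := abs_le.1 (hT.max t ht)
      refine key (g * t) g hg2 hg1 (cay_adj_mul hT.gen g ht).symm ?_ ?_
      · rw [hT.hom]; omega
      · rw [hT.hom]; omega
  have hcrs : ∀ i : ℕ, ∃ x : ℤ, (cay S).Adj (f (2 * i) x) (f (2 * i + 1) (x + 1)) ∧
      (cay S).Adj (f (2 * i) (x + 1)) (f (2 * i + 1) x) := by
    intro i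
    obtain ⟨a, b, ha, hb, h1, h2, h3⟩ := hcr i
    obtain ⟨x, rfl⟩ := frep (2 * i) a ha
    obtain ⟨y, rfl⟩ := frep (2 * i + 1) b hb
    rw [fh, fh] at h1
    have b1 := hr2 (2 * i)
    have b2 := hr3 (2 * i)
    have b3 := hr2 (2 * i + 1)
    have b4 := hr3 (2 * i + 1)
    have hy : y = x + 1 := by
      by_contra hne
      rcases lt_or_gt_of_ne hne with hlt | hlt
      · have h4 : y * (H : ℤ) ≤ x * H := mul_le_mul_of_nonneg_right (by omega) hH.le
        omega
      · have h4 : (x + 2) * (H : ℤ) ≤ y * H := mul_le_mul_of_nonneg_right (by omega) hH.le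
        have h5 : (x + 2) * (H : ℤ) = x * H + 2 * H := by ring
        omega
    subst hy
    refine ⟨x, ?_, ?_⟩
    · rw [cay_adj hT.gen]
      exact h2
    · rw [cay_adj hT.gen]
      have e1 : f (2 * i) (x + 1) = f (2 * i) x * s := by
        show r (2 * i) * s ^ (x + 1) = r (2 * i) * s ^ x * s
        rw [zpow_add_one, mul_assoc]
      have e2 : f (2 * i + 1) x = f (2 * i + 1) (x + 1) * s⁻¹ := by
        show r (2 * i + 1) * s ^ x = r (2 * i + 1) * s ^ (x + 1) * s⁻¹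
        rw [zpow_add_one, mul_assoc, mul_assoc, mul_inv_cancel, mul_one]
      rw [e1, e2]
      exact h3
  choose x hx1 hx2 using hcrs
  refine Lad.mn (G := cay S) (Q := q + 1) (m := (m : ℤ)) (f := f) (c := fun i => x i % m)
    ⟨hm, ?_, ?_, ?_, ?_, ?_, ?_⟩
  · intro j j' y y' hj hj' hff
    have h1 := congrArg (fun g : Γ => (g : Γ ⧸ Subgroup.zpowers s)) hff
    simp only [fco] at h1
    have h2 := add_left_cancel (e.symm.injective h1)
    rw [ZMod.natCast_eq_natCast_iff'] at h2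
    rw [Nat.mod_eq_of_lt (by omega), Nat.mod_eq_of_lt (by omega)] at h2
    subst h2
    refine ⟨rfl, ?_⟩
    have h3 := congrArg h hff
    rw [fh, fh] at h3
    have h4 : y * (H : ℤ) = y' * H := by omega
    exact mul_right_cancel₀ hH.ne' h4
  · intro j y _
    show (cay S).Adj (r j * s ^ y) (r j * s ^ (y + 1))
    rw [zpow_add_one, ← mul_assoc]
    exact cay_adj_mul hT.gen _ hT.hs
  · intro j _
    obtain ⟨a, d, h1, h2, h3⟩ := hcon j
    exact ⟨a, d, h1, h2, fun k => fadj _ _ _ _ h3 k⟩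
  · intro i
    exact Int.emod_nonneg _ hm.ne'
  · intro i
    exact Int.emod_lt_of_pos _ hm
  · intro i _ k
    have e1 : x i % m + m * k = x i + m * (k - x i / m) := by
      have := Int.emod_add_mul_ediv (x i) m
      rw [mul_sub]; omega
    have e2 : x i % m + 1 + m * k = x i + 1 + m * (k - x i / m) := by
      have := Int.emod_add_mul_ediv (x i) m
      rw [mul_sub]; omega
    show (cay S).Adj (f (2 * i) (x i % m + m * k)) (f (2 * i + 1) (x i % m + 1 + m * k)) ∧
      (cay S).Adj (f (2 * i) (x i % m + 1 + m * k)) (f (2 * i + 1) (x i % m + m * k))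
    rw [e1, e2]
    exact ⟨fadj _ _ _ _ (hx1 i) _, fadj _ _ _ _ (hx2 i) _⟩

end Pool.Agent.Helper63.NW
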