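import Pool.Agent.Helper61.NW.Goals2

set_option autoImplicit false

namespace Pool.Agent.Helper63.NW

open Pool.Agent.Helper52.Wq2 Pool.Agent.Helper61.NW

universe u

/-- Abstract line data. -/
structure LD {V : Type u} (G : SimpleGraph V) (X : V → ℤ) (H : ℤ) (φ : Equiv.Perm V) (m : ℕ) :
    Prop where
  Hpos : 0 < H
  mpos : 0 < m
  up : ∀ g, X (φ g) = X g + H
  adj : ∀ g, G.Adj g (φ g)
  near : ∀ g g', G.Adj g g' → X g' - X g ≤ H
  per : ∀ g g', G.Adj g g' ↔ G.Adj ((φ ^ m) g) ((φ ^ m) g')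
  conn : Conn G Set.univ
  trans : ∀ x y : V, ∃ (L : G ≃g G) (e c k : ℤ), (e = 1 ∨ e = -1) ∧ L x = (φ ^ k) y ∧
    (∀ g, L (φ g) = (φ ^ e) (L g)) ∧ ∀ g, X (L g) = e * X g + c

theorem LD.X_zpow {V : Type u} {G : SimpleGraph V} {X : V → ℤ} {H : ℤ} {φ : Equiv.Perm V} {m : ℕ}
    (h : LD G X H φ m) (a : ℤ) (g : V) : X ((φ ^ a) g) = X g + a * H := by
  have hn : ∀ (k : ℕ) (g : V), X ((φ ^ k) g) = X g + k * H := by
    intro k
    induction k with
    | zero => intro g; simp
    | succ k ih =>
      intro g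
      rw [pow_succ, Equiv.Perm.mul_apply, ih, h.up]
      push_cast
      ring
  rcases Int.eq_nat_or_neg a with ⟨k, rfl | rfl⟩
  · rw [zpow_natCast, hn]
  · have := hn k ((φ ^ (-(k : ℤ))) g)
    rw [← zpow_natCast, ← Equiv.Perm.mul_apply, ← zpow_add, add_neg_cancel, zpow_zero,
      Equiv.Perm.one_apply] at this
    rw [this]
    ring

theorem LD.lsys {V : Type u} {G : SimpleGraph V} {X : V → ℤ} {H : ℤ} {φ : Equiv.Perm V} {m : ℕ}
    (h : LD G X H φ m) (n : ℕ) (r : Fin n ≃ {g : V // 0 ≤ X g ∧ X g < H}) (hn : 0 < n) :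
    ∃ G' : SimpleGraph (ℤ × Fin n), Lsys n m G' ∧ Nonempty (G ≃g G') := by
  have hH := h.Hpos
  let F : ℤ × Fin n → V := fun v => (φ ^ v.1) (r v.2).1
  have FX : ∀ a j, X (F (a, j)) = X (r j).1 + a * H := fun a j => h.X_zpow a _
  have Fpos : ∀ a j, X (F (a, j)) / H = a := by
    intro a j
    rw [FX, Int.add_mul_ediv_right _ _ hH.ne', Int.ediv_eq_zero_of_lt (r j).2.1 (r j).2.2, zero_add]
  have Finj : Function.Injective F := by
    rintro ⟨a, i⟩ ⟨b, j⟩ he
    have h1 : a = b := by rw [← Fpos a i, he, Fpos]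
    subst h1
    have h2 : (r i).1 = (r j).1 := (φ ^ a).injective he
    rw [r.injective (Subtype.ext h2)]
  have Fsur : Function.Surjective F := by
    intro g
    have h1 : 0 ≤ X ((φ ^ (-(X g / H))) g) ∧ X ((φ ^ (-(X g / H))) g) < H := by
      rw [h.X_zpow]
      have h2 := Int.emod_nonneg (X g) hH.ne'
      have h3 := Int.emod_lt_of_pos (X g) hH
      have h4 := Int.emod_add_mul_ediv (X g) H
      have e : -(X g / H) * H = - (H * (X g / H)) := by ring
      rw [e]
      constructor <;> omega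
    refine ⟨(X g / H, r.symm ⟨_, h1⟩), ?_⟩
    show (φ ^ (X g / H)) (r (r.symm ⟨_, h1⟩)).1 = g
    rw [Equiv.apply_symm_apply, ← Equiv.Perm.mul_apply, ← zpow_add, add_neg_cancel, zpow_zero,
      Equiv.Perm.one_apply]
  have Fadd : ∀ (a b : ℤ) (j : Fin n), F (a + b, j) = (φ ^ b) (F (a, j)) := by
    intro a b j
    show (φ ^ (a + b)) (r j).1 = (φ ^ b) ((φ ^ a) (r j).1)
    rw [← Equiv.Perm.mul_apply, ← zpow_add, add_comm]
  let E : ℤ × Fin n ≃ V := Equiv.ofBijective F ⟨Finj, Fsur⟩
  have Eap : ∀ v, E v = F v := fun v => rfl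
  let G' : SimpleGraph (ℤ × Fin n) := G.comap F
  have hadj : ∀ v w, G'.Adj v w ↔ G.Adj (F v) (F w) := fun v w => Iff.rfl
  let iso : G' ≃g G := ⟨E, fun {v w} => (hadj v w).symm⟩
  refine ⟨G', ⟨hn, h.mpos, ?_, ?_, ?_, ?_, ?_⟩, ⟨iso.symm⟩⟩
  · intro a j
    rw [hadj, Fadd, zpow_one]
    exact h.adj _
  · intro a b i j hab
    rw [hadj] at hab
    have h1 := h.near _ _ hab
    have h2 := h.near _ _ hab.symm
    rw [FX, FX] at h1 h2
    have b1 := (r i).2
    have b2 := (r j).2
    rw [abs_le]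
    constructor
    · by_contra hlt
      have h4 : (a + 2) * H ≤ b * H := mul_le_mul_of_nonneg_right (by omega) hH.le
      have h5 : (a + 2) * H = a * H + 2 * H := by ring
      omega
    · by_contra hlt
      have h4 : (b + 2) * H ≤ a * H := mul_le_mul_of_nonneg_right (by omega) hH.le
      have h5 : (b + 2) * H = b * H + 2 * H := by ring
      omega
  · intro a b i j
    rw [hadj, hadj, Fadd, Fadd, zpow_natCast]
    exact h.per _ _
  · have := h.conn.image (G' := G') iso.symm (fun a _ b _ hab => Or.inr (iso.symm.map_rel_iff.2 hab))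
    have e : iso.symm '' (Set.univ : Set V) = Set.univ := by
      rw [Set.image_univ]
      exact iso.symm.surjective.range_eq
    rw [e] at this
    exact this
  · intro i j
    obtain ⟨L, e, c, k, he, hL, hcom, hX⟩ := h.trans (r i).1 (r j).1
    have hLa : ∀ (a : ℤ) (g : V), L ((φ ^ a) g) = (φ ^ (e * a)) (L g) := by
      have hnn : ∀ (k : ℕ) (g : V), L ((φ ^ k) g) = (φ ^ (e * (k : ℤ))) (L g) := by
        intro k
        induction k with
        | zero => intro g; simp
        | succ k ih =>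
          intro g
          rw [pow_succ, Equiv.Perm.mul_apply, ih, hcom, ← Equiv.Perm.mul_apply, ← zpow_add]
          congr 2
          push_cast
          ring
      intro a g
      rcases Int.eq_nat_or_neg a with ⟨k, rfl | rfl⟩
      · rw [zpow_natCast, hnn]
      · have h1 := hnn k ((φ ^ (-(k : ℤ))) g)
        rw [← zpow_natCast, ← Equiv.Perm.mul_apply, ← zpow_add, add_neg_cancel, zpow_zero,
          Equiv.Perm.one_apply] at h1
        rw [h1, ← Equiv.Perm.mul_apply, ← zpow_add]
        have e1 : e * -(k : ℤ) + e * k = 0 := by ring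
        rw [e1, zpow_zero, Equiv.Perm.one_apply]
    choose w hw using fun k : Fin n => Fsur (L (r k).1)
    -- w k = (c k, τ k)
    have hrk : ∀ k, L (r k).1 = (φ ^ (w k).1) (r (w k).2).1 := fun k => (hw k).symm
    have hτ : Function.Injective (fun k => (w k).2) := by
      intro k k' hkk
      have hkk' : (w k).2 = (w k').2 := hkk
      have h1 := hrk k
      have h2 := hrk k'
      rw [← hkk'] at h2
      have h3 : L (r k).1 = (φ ^ ((w k).1 - (w k').1)) (L (r k').1) := by
        rw [h1, h2, ← Equiv.Perm.mul_apply, ← zpow_add, sub_add_cancel]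
      have he2 : e * e = 1 := by rcases he with rfl | rfl <;> rfl
      have h4 : L (r k).1 = L ((φ ^ (e * ((w k).1 - (w k').1))) (r k').1) := by
        rw [hLa, ← mul_assoc, he2, one_mul]
        exact h3
      have h5 := L.injective h4
      have h6 : F (0, k) = F (e * ((w k).1 - (w k').1), k') := by
        show (φ ^ (0 : ℤ)) (r k).1 = _
        rw [zpow_zero, Equiv.Perm.one_apply, h5]
      exact congrArg Prod.snd (Finj h6)
    let τ : Equiv.Perm (Fin n) := Equiv.ofBijective _ (Finite.injective_iff_bijective.1 hτ)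
    let f : G' ≃g G' := (iso.trans L).trans iso.symm
    have hf : ∀ v, F (f v) = L (F v) := by
      intro v
      show iso (iso.symm (L (iso v))) = L (iso v)
      exact iso.apply_symm_apply _
    refine ⟨f, τ, e, fun k => (w k).1, he, ?_, ?_⟩
    · show (w i).2 = j
      have h1 : F (w i) = F (k, j) := by
        rw [hw i, hL]
      exact congrArg Prod.snd (Finj h1)
    · intro a k
      apply Finj
      rw [hf]
      show L ((φ ^ a) (r k).1) = (φ ^ (e * a + (w k).1)) (r (w k).2).1
      rw [hLa, hrk, ← Equiv.Perm.mul_apply, ← zpow_add]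

end Pool.Agent.Helper63.NW
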