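import Pool.Agent.Helper63.NW.DC

set_option autoImplicit false

namespace Pool.Agent.Helper63.NW

open Pool.Agent.Helper52.Wq2 Pool.Agent.Helper61.NW
open scoped Nat

universe u

section

variable {Γ : Type u} [Group Γ] {ε : Γ →* ℤˣ} {h : Γ → ℤ}

theorem E_cases (ε : Γ →* ℤˣ) (g : Γ) : (ε g : ℤ) = 1 ∨ (ε g : ℤ) = -1 := by
  rcases Int.units_eq_one_or (ε g) with h | h
  · left; rw [h]; rfl
  · right; rw [h]; rfl

theorem E_mul (ε : Γ →* ℤˣ) (a b : Γ) : (ε (a * b) : ℤ) = (ε a : ℤ) * (ε b : ℤ) := by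
  rw [map_mul]; rfl

theorem E_one (ε : Γ →* ℤˣ) : (ε 1 : ℤ) = 1 := by
  rw [map_one]; rfl

theorem E_sq (ε : Γ →* ℤˣ) (a : Γ) : (ε a : ℤ) * (ε a : ℤ) = 1 := by
  rcases E_cases ε a with h | h <;> rw [h] <;> rfl

theorem E_inv (ε : Γ →* ℤˣ) (a : Γ) : (ε a⁻¹ : ℤ) = (ε a : ℤ) := by
  have h1 : (ε a : ℤ) * (ε a⁻¹ : ℤ) = 1 := by rw [← E_mul, mul_inv_cancel, E_one]
  rcases E_cases ε a with h | h <;> rw [h] at h1 ⊢ <;> omega

theorem E_eq (ε : Γ →* ℤˣ) (a : Γ) : ε a = 1 ↔ (ε a : ℤ) = 1 := by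
  constructor
  · intro h; rw [h]; rfl
  · intro h; exact Units.ext h

theorem Dh.h1 (hD : Dh ε h) : h 1 = 0 := by
  have := hD.coc 1 1
  rw [mul_one, E_one] at this
  omega

theorem Dh.hinv (hD : Dh ε h) (a : Γ) : h a⁻¹ = - ((ε a : ℤ) * h a) := by
  have h1 := hD.coc a a⁻¹
  rw [mul_inv_cancel, Dh.h1 hD] at h1
  rcases E_cases ε a with h | h <;> rw [h] at h1 ⊢ <;> omega

/-- The finite normal subgroup. -/
def KK (hD : Dh ε h) : Subgroup Γ where
  carrier := {g | ε g = 1 ∧ h g = 0}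
  one_mem' := ⟨map_one _, Dh.h1 hD⟩
  mul_mem' := by
    rintro a b ⟨h1, h2⟩ ⟨h3, h4⟩
    refine ⟨by rw [map_mul, h1, h3, mul_one], ?_⟩
    rw [hD.coc, h2, h4, mul_zero, add_zero]
  inv_mem' := by
    rintro a ⟨h1, h2⟩
    refine ⟨by rw [map_inv, h1, inv_one], ?_⟩
    rw [Dh.hinv hD, h2, mul_zero, neg_zero]

theorem KK_normal (hD : Dh ε h) : (KK hD).Normal := by
  refine ⟨?_⟩
  rintro k ⟨h1, h2⟩ x
  refine ⟨?_, ?_⟩
  · rw [map_mul, map_mul, h1, mul_one, map_inv, mul_inv_cancel]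
  · rw [hD.coc, hD.coc, h2, E_mul, (E_eq ε k).1 h1, Dh.hinv hD]
    have := E_sq ε x
    have e : h x + (ε x : ℤ) * 0 + (ε x : ℤ) * 1 * (-((ε x : ℤ) * h x)) =
      h x - ((ε x : ℤ) * (ε x : ℤ)) * h x := by ring
    rw [e, this]
    ring

theorem KK_fin (hD : Dh ε h) : Finite (KK hD) := hD.ker.to_subtype

/-- Powers of elements without sign. -/
theorem Dh.hpow (hD : Dh ε h) {a : Γ} (ha : ε a = 1) (k : ℕ) : h (a ^ k) = k * h a := by
  induction k with
  | zero => simp [Dh.h1 hD]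
  | succ k ih =>
    rw [pow_succ, hD.coc, ih, map_pow, ha, one_pow]
    push_cast
    ring

theorem Dh.hzpow (hD : Dh ε h) {a : Γ} (ha : ε a = 1) (k : ℤ) : h (a ^ k) = k * h a := by
  rcases Int.eq_nat_or_neg k with ⟨j, rfl | rfl⟩
  · rw [zpow_natCast, Dh.hpow hD ha]
  · rw [zpow_neg, zpow_natCast, Dh.hinv hD, Dh.hpow hD ha, map_pow, ha, one_pow]
    push_cast
    ring

theorem comm_K (hD : Dh ε h) (n : ℕ) (hn : Nat.card (KK hD) ≤ n) (g : Γ) (k : Γ)
    (hk : k ∈ KK hD) : Commute (g ^ (n !)) k := by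
  have := KK_normal hD
  have := KK_fin hD
  have : Fintype (KK hD) := Fintype.ofFinite _
  classical
  let ρ : Equiv.Perm (KK hD) := MulAut.toPerm (KK hD) (MulAut.conjNormal g)
  have h1 : ρ ^ (n !) = 1 := by
    have hd : Fintype.card (Equiv.Perm (KK hD)) ∣ n ! := by
      rw [Fintype.card_perm, ← Nat.card_eq_fintype_card]
      exact Nat.factorial_dvd_factorial hn
    obtain ⟨q, hq⟩ := hd
    rw [hq, pow_mul, pow_card_eq_one, one_pow]
  have h2 : MulAut.toPerm (KK hD) (MulAut.conjNormal (g ^ (n !))) = 1 := by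
    rw [map_pow, map_pow]
    exact h1
  have h3 := congrArg (fun p : Equiv.Perm (KK hD) => ((p ⟨k, hk⟩ : KK hD) : Γ)) h2
  have h4 : g ^ (n !) * k * (g ^ (n !))⁻¹ = k := h3
  show g ^ (n !) * k = k * g ^ (n !)
  exact mul_inv_eq_iff_eq_mul.1 h4

theorem cl (hD : Dh ε h) (n : ℕ) (hn : Nat.card (KK hD) ≤ n) (g : Γ) (hg : ε g = 1) (x : Γ) :
    g ^ (n ! * Nat.card (KK hD)) * x = x * (g ^ (n ! * Nat.card (KK hD))) ^ (ε x : ℤ) := by
  set κ := Nat.card (KK hD) with hκ
  set a := g ^ (n !) with ha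
  have hεa : ε a = 1 := by rw [ha, map_pow, hg, one_pow]
  have hy1 : ε (x⁻¹ * a * x) = 1 := by
    rw [map_mul, map_mul, hεa, mul_one, map_inv, inv_mul_cancel]
  have hy2 : h (x⁻¹ * a * x) = (ε x : ℤ) * h a := by
    rw [hD.coc, hD.coc, E_mul, E_inv, (E_eq ε a).1 hεa, Dh.hinv hD]
    ring
  have hk : (x⁻¹ * a * x) * (a ^ (ε x : ℤ))⁻¹ ∈ KK hD := by
    refine ⟨?_, ?_⟩
    · rw [map_mul, hy1, map_inv, map_zpow, hεa, one_zpow, inv_one, one_mul]
    · rw [hD.coc, hy2, (E_eq ε _).1 hy1, Dh.hinv hD, Dh.hzpow hD hεa, map_zpow, hεa, one_zpow]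
      push_cast
      ring
  set k := (x⁻¹ * a * x) * (a ^ (ε x : ℤ))⁻¹ with hkdef
  have hc : Commute k (a ^ (ε x : ℤ)) := ((comm_K hD n hn g k hk).zpow_left _).symm
  have hy3 : x⁻¹ * a * x = k * a ^ (ε x : ℤ) := by rw [hkdef, inv_mul_cancel_right]
  have hk1 : k ^ κ = 1 := by
    have := KK_fin hD
    have h4 := pow_card_eq_one' (x := (⟨k, hk⟩ : KK hD))
    have h5 := congrArg Subtype.val h4
    rw [SubmonoidClass.coe_pow] at h5
    exact h5
  have h6 : (x⁻¹ * a * x) ^ κ = (a ^ (ε x : ℤ)) ^ κ := by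
    rw [hy3, hc.mul_pow, hk1, one_mul]
  have h7 : (x⁻¹ * a * x) ^ κ = x⁻¹ * a ^ κ * x := by
    have h8 := conj_pow (i := κ) (a := x⁻¹) (b := a)
    rwa [inv_inv] at h8
  have h9 : (a ^ (ε x : ℤ)) ^ κ = (a ^ κ) ^ (ε x : ℤ) := by
    rw [← zpow_natCast, ← zpow_natCast, ← zpow_mul, ← zpow_mul, mul_comm]
  have h10 : x⁻¹ * a ^ κ * x = (a ^ κ) ^ (ε x : ℤ) := by rw [← h7, h6, h9]
  have h11 : a ^ κ * x = x * (a ^ κ) ^ (ε x : ℤ) := by
    rw [← h10, mul_assoc x⁻¹, mul_inv_cancel_left]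
  rw [pow_mul]
  exact h11

theorem conn_cay {S : Set Γ} (hS : IsGen S) : Conn (cay S) Set.univ := by
  refine conn_of_root (r := (1 : Γ)) trivial ?_
  have hsym : ∀ a b : Γ,
      Relation.ReflTransGen (fun a b : Γ => (cay S).Adj a b ∧ b ∈ Set.univ) a b →
      Relation.ReflTransGen (fun a b : Γ => (cay S).Adj a b ∧ b ∈ Set.univ) b a := by
    intro a b hab
    induction hab with
    | refl => exact Relation.ReflTransGen.refl
    | tail _ h ih => exact Relation.ReflTransGen.head ⟨h.1.symm, trivial⟩ ih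
  have key : ∀ x ∈ Subgroup.closure S, ∀ g : Γ,
      Relation.ReflTransGen (fun a b : Γ => (cay S).Adj a b ∧ b ∈ Set.univ) g (g * x) := by
    intro x hx
    induction hx using Subgroup.closure_induction with
    | mem y hy => intro g; exact Relation.ReflTransGen.single ⟨cay_adj_mul hS g hy, trivial⟩
    | one => intro g; rw [mul_one]
    | mul a b _ _ iha ihb =>
      intro g
      rw [← mul_assoc]
      exact (iha g).trans (ihb _)
    | inv a _ iha =>
      intro g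
      have := iha (g * a⁻¹)
      rw [inv_mul_cancel_right] at this
      exact hsym _ _ this
  intro x _
  have := key x (by rw [hS.1]; trivial) 1
  rwa [one_mul] at this

/-- The heights. -/
def XH (ε : Γ →* ℤˣ) (h : Γ → ℤ) (y : ℤ) (g : Γ) : ℤ := 4 * h g + (ε g : ℤ) * y

theorem XH_mul (hD : Dh ε h) (y : ℤ) (g t : Γ) :
    XH ε h y (g * t) = XH ε h y g + (ε g : ℤ) * (XH ε h y t - y) := by
  unfold XH
  rw [hD.coc, E_mul]
  ring

theorem XH_left (hD : Dh ε h) (y : ℤ) (g t : Γ) :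
    XH ε h y (g * t) = (ε g : ℤ) * XH ε h y t + 4 * h g := by
  unfold XH
  rw [hD.coc, E_mul]
  ring

theorem fin_XH (hD : Dh ε h) (y H : ℤ) : {g : Γ | 0 ≤ XH ε h y g ∧ XH ε h y g < H}.Finite := by
  have h1 : ∀ (e : ℤˣ) (v : ℤ), {g : Γ | ε g = e ∧ h g = v}.Finite := by
    intro e v
    rcases Set.eq_empty_or_nonempty {g : Γ | ε g = e ∧ h g = v} with h0 | ⟨g0, h2, h3⟩
    · rw [h0]; exact Set.finite_empty
    · refine (hD.ker.image (fun k => g0 * k)).subset ?_
      rintro g ⟨h4, h5⟩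
      refine ⟨g0⁻¹ * g, ⟨?_, ?_⟩, mul_inv_cancel_left _ _⟩
      · rw [map_mul, map_inv, h2, h4, inv_mul_cancel]
      · rw [hD.coc, Dh.hinv hD, E_inv, h3, h5]
        ring
  have h2 : {g : Γ | 0 ≤ XH ε h y g ∧ XH ε h y g < H} ⊆
      ⋃ e : ℤˣ, ⋃ v ∈ Set.Icc (-(|y| + |H|)) (|y| + |H|), {g : Γ | ε g = e ∧ h g = v} := by
    rintro g ⟨h3, h4⟩
    simp only [Set.mem_iUnion]
    refine ⟨ε g, h g, ?_, rfl, rfl⟩
    unfold XH at h3 h4
    have a1 := le_abs_self y
    have a2 := neg_abs_le y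
    have a3 := le_abs_self H
    have a4 := neg_abs_le H
    have a5 := abs_nonneg y
    have a6 := abs_nonneg H
    rcases E_cases ε g with h | h <;> rw [h] at h3 h4 <;> exact ⟨by omega, by omega⟩
  refine Set.Finite.subset ?_ h2
  refine Set.finite_iUnion fun e => ?_
  exact (Set.finite_Icc _ _).biUnion fun v _ => h1 e v

/-- From line data with any period to the conclusion. -/
theorem fin_of {S : Set Γ} (hD : Dh ε h) (y H : ℤ) (fi : Equiv.Perm Γ)
    (hH : 0 < H) (hup : ∀ g, XH ε h y (fi g) = XH ε h y g + H)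
    (hld : ∀ n : ℕ, Nat.card (KK hD) ≤ n → ∃ m : ℕ, m ≤ 2 * (n ! * Nat.card (KK hD)) ∧
      LD (cay S) (XH ε h y) H fi m) :
    ∃ (n m : ℕ) (G : SimpleGraph (ℤ × Fin n)), m ≤ 2 * (n ! * (n * n)) ∧
      Lsys n m G ∧ Nonempty (cay S ≃g G) := by
  have : Finite {g : Γ // 0 ≤ XH ε h y g ∧ XH ε h y g < H} := (fin_XH hD y H).to_subtype
  set n := Nat.card {g : Γ // 0 ≤ XH ε h y g ∧ XH ε h y g < H} with hn
  obtain ⟨_, _, hld0⟩ := hld (Nat.card (KK hD)) (le_refl _)
  have hsh : ∀ g, 0 ≤ XH ε h y ((fi ^ (-(XH ε h y g / H))) g) ∧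
      XH ε h y ((fi ^ (-(XH ε h y g / H))) g) < H := by
    intro g
    rw [hld0.X_zpow]
    have h2 := Int.emod_nonneg (XH ε h y g) hH.ne'
    have h3 := Int.emod_lt_of_pos (XH ε h y g) hH
    have h4 := Int.emod_add_mul_ediv (XH ε h y g) H
    have e : -(XH ε h y g / H) * H = - (H * (XH ε h y g / H)) := by ring
    rw [e]
    constructor <;> omega
  have hn0 : 0 < n := by
    rw [hn]
    have : Nonempty {g : Γ // 0 ≤ XH ε h y g ∧ XH ε h y g < H} := ⟨⟨_, hsh 1⟩⟩
    exact Nat.card_pos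
  have hκ : Nat.card (KK hD) ≤ n := by
    have hXk : ∀ k : KK hD, XH ε h y (k : Γ) = y := by
      intro k
      unfold XH
      rw [k.2.2, (E_eq ε _).1 k.2.1]
      ring
    refine Nat.card_le_card_of_injective
      (fun k : KK hD => (⟨_, hsh (k : Γ)⟩ : {g : Γ // 0 ≤ XH ε h y g ∧ XH ε h y g < H})) ?_
    intro k k' hkk
    have h1 := congrArg Subtype.val hkk
    simp only [hXk] at h1
    exact Subtype.ext ((fi ^ (-(y / H))).injective h1)
  obtain ⟨m, hm, hLD⟩ := hld n hκ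
  obtain ⟨G', hG1, hG2⟩ := hLD.lsys n (Finite.equivFinOfCardEq hn.symm).symm hn0
  refine ⟨n, m, G', ?_, hG1, hG2⟩
  refine hm.trans (Nat.mul_le_mul_left _ (Nat.mul_le_mul_left _ ?_))
  calc Nat.card (KK hD) ≤ n := hκ
    _ = n * 1 := (mul_one n).symm
    _ ≤ n * n := Nat.mul_le_mul_left _ hn0

/-- Left multiplication as an automorphism of the Cayley graph. -/
def lm {S : Set Γ} (hS : IsGen S) (u : Γ) : cay S ≃g cay S where
  toEquiv := Equiv.mulLeft u
  map_rel_iff' := by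
    intro a b
    show (cay S).Adj (u * a) (u * b) ↔ (cay S).Adj a b
    rw [cay_adj hS, cay_adj hS]
    have e1 : (u * a)⁻¹ * (u * b) = a⁻¹ * b := by group
    rw [e1]

theorem lm_apply {S : Set Γ} (hS : IsGen S) (u g : Γ) : lm hS u g = u * g := rfl

theorem near_of {S : Set Γ} (hS : IsGen S) (hD : Dh ε h) (y H : ℤ)
    (hmax : ∀ u ∈ S, |XH ε h y u - y| ≤ H) :
    ∀ g g', (cay S).Adj g g' → XH ε h y g' - XH ε h y g ≤ H := by
  intro g g' hgg
  rw [cay_adj hS] at hgg
  have h1 := XH_mul hD y g (g⁻¹ * g')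
  rw [mul_inv_cancel_left] at h1
  have h2 := abs_le.1 (hmax _ hgg)
  rcases E_cases ε g with h | h <;> rw [h] at h1 <;> omega

/-- Case 1. -/
theorem case1 {S : Set Γ} (hS : IsGen S) (hD : Dh ε h) (y : ℤ) (s : Γ) (hs : s ∈ S)
    (hεs : ε s = 1) (hpos : 0 < h s) (hmax : ∀ u ∈ S, |XH ε h y u - y| ≤ 4 * h s) :
    ∃ (n m : ℕ) (G : SimpleGraph (ℤ × Fin n)), m ≤ 2 * (n ! * (n * n)) ∧
      Lsys n m G ∧ Nonempty (cay S ≃g G) := by
  have hEs : ∀ (g : Γ) (i : ℤ), (ε (g * s ^ i) : ℤ) = (ε g : ℤ) := by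
    intro g i
    rw [E_mul, map_zpow, hεs, one_zpow]
    simp
  let fi : Equiv.Perm Γ :=
    { toFun := fun g => g * s ^ (ε g : ℤ)
      invFun := fun g => g * s ^ (-(ε g : ℤ))
      left_inv := by
        intro g
        show g * s ^ (ε g : ℤ) * s ^ (-(ε (g * s ^ (ε g : ℤ)) : ℤ)) = g
        rw [hEs, mul_assoc, ← zpow_add, add_neg_cancel, zpow_zero, mul_one]
      right_inv := by
        intro g
        show g * s ^ (-(ε g : ℤ)) * s ^ (ε (g * s ^ (-(ε g : ℤ))) : ℤ) = g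
        rw [hEs, mul_assoc, ← zpow_add, neg_add_cancel, zpow_zero, mul_one] }
  have hfi : ∀ g, fi g = g * s ^ (ε g : ℤ) := fun g => rfl
  have hfii : ∀ g, fi⁻¹ g = g * s ^ (-(ε g : ℤ)) := fun g => rfl
  have hfin : ∀ (k : ℕ) (g : Γ), (fi ^ k) g = g * s ^ ((ε g : ℤ) * k) := by
    intro k
    induction k with
    | zero => intro g; simp
    | succ k ih =>
      intro g
      rw [pow_succ, Equiv.Perm.mul_apply, ih, hfi, hEs, mul_assoc, ← zpow_add]
      congr 2
      push_cast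
      ring
  have hup : ∀ g, XH ε h y (fi g) = XH ε h y g + 4 * h s := by
    intro g
    rw [hfi, XH_mul hD]
    have e1 : XH ε h y (s ^ (ε g : ℤ)) - y = 4 * ((ε g : ℤ) * h s) := by
      unfold XH
      rw [Dh.hzpow hD hεs, map_zpow, hεs, one_zpow]
      push_cast
      ring
    rw [e1]
    have := E_sq ε g
    have e2 : (ε g : ℤ) * (4 * ((ε g : ℤ) * h s)) = 4 * (((ε g : ℤ) * (ε g : ℤ)) * h s) := by ring
    rw [e2, this]
    ring
  have hH : 0 < 4 * h s := by omega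
  refine fin_of hD y (4 * h s) fi hH hup ?_
  intro n hn
  have hκ : 0 < Nat.card (KK hD) := by
    have := KK_fin hD
    exact Nat.card_pos
  refine ⟨n ! * Nat.card (KK hD), by omega, hH, Nat.mul_pos (Nat.factorial_pos n) hκ, hup, ?_,
    near_of hS hD y _ hmax, ?_, conn_cay hS, ?_⟩
  · intro g
    rw [hfi, cay_adj hS, inv_mul_cancel_left]
    rcases E_cases ε g with h | h <;> rw [h]
    · rw [zpow_one]; exact hs
    · rw [zpow_neg_one]; exact hS.2.1 _ hs
  · intro g g'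
    have e : ∀ g : Γ, (fi ^ (n ! * Nat.card (KK hD))) g =
        lm hS (s ^ (n ! * Nat.card (KK hD))) g := by
      intro g
      rw [hfin, lm_apply, cl hD n hn s hεs g, ← zpow_natCast, ← zpow_mul, mul_comm]
    rw [e, e]
    exact ((lm hS _).map_rel_iff (a := g) (b := g')).symm
  · intro x z
    refine ⟨lm hS (z * x⁻¹), (ε (z * x⁻¹) : ℤ), 4 * h (z * x⁻¹), 0, E_cases ε _, ?_, ?_, ?_⟩
    · rw [lm_apply, inv_mul_cancel_right, zpow_zero, Equiv.Perm.one_apply]
    · intro g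
      rw [lm_apply, lm_apply, hfi]
      rcases E_cases ε (z * x⁻¹) with h1 | h1
      · rw [h1, zpow_one, hfi, E_mul, h1, one_mul, mul_assoc (z * x⁻¹)]
      · rw [h1, zpow_neg_one, hfii, E_mul, h1, mul_assoc (z * x⁻¹)]
        congr 3
        ring
    · intro g
      rw [lm_apply]
      exact XH_left hD y _ _

/-- Case 2. -/
theorem case2 {S : Set Γ} (hS : IsGen S) (hD : Dh ε h) (t r : Γ) (ht : t ∈ S) (hr : r ∈ S)
    (hεt : ε t = -1) (hεr : ε r = -1) (hpos : 0 < 2 * (h t - h r))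
    (hmax : ∀ u ∈ S, |XH ε h (h t + h r) u - (h t + h r)| ≤ 2 * (h t - h r)) :
    ∃ (n m : ℕ) (G : SimpleGraph (ℤ × Fin n)), m ≤ 2 * (n ! * (n * n)) ∧
      Lsys n m G ∧ Nonempty (cay S ≃g G) := by
  classical
  have hEt : (ε t : ℤ) = -1 := by rw [hεt]; rfl
  have hEr : (ε r : ℤ) = -1 := by rw [hεr]; rfl
  have hXt : ∀ g, (ε (g * t) : ℤ) = - (ε g : ℤ) := by
    intro g; rw [E_mul, hEt]; ring
  have hXr : ∀ g, (ε (g * r) : ℤ) = - (ε g : ℤ) := by
    intro g; rw [E_mul, hEr]; ring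
  have hXti : ∀ g, (ε (g * t⁻¹) : ℤ) = - (ε g : ℤ) := by
    intro g; rw [E_mul, E_inv, hEt]; ring
  have hXri : ∀ g, (ε (g * r⁻¹) : ℤ) = - (ε g : ℤ) := by
    intro g; rw [E_mul, E_inv, hEr]; ring
  let F : Γ → Γ := fun g => if (ε g : ℤ) = 1 then g * t else g * r
  let B : Γ → Γ := fun g => if (ε g : ℤ) = 1 then g * r⁻¹ else g * t⁻¹
  have F1 : ∀ g, (ε g : ℤ) = 1 → F g = g * t := fun g hg => if_pos hg
  have F2 : ∀ g, (ε g : ℤ) = -1 → F g = g * r := fun g hg => if_neg (by rw [hg]; omega)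
  have B1 : ∀ g, (ε g : ℤ) = 1 → B g = g * r⁻¹ := fun g hg => if_pos hg
  have B2 : ∀ g, (ε g : ℤ) = -1 → B g = g * t⁻¹ := fun g hg => if_neg (by rw [hg]; omega)
  let fi : Equiv.Perm Γ :=
    { toFun := F
      invFun := B
      left_inv := by
        intro g
        rcases E_cases ε g with h | h
        · rw [F1 g h, B2 _ (by rw [hXt, h]), mul_inv_cancel_right]
        · rw [F2 g h, B1 _ (by rw [hXr, h]; rfl), mul_inv_cancel_right]
      right_inv := by
        intro g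
        rcases E_cases ε g with h | h
        · rw [B1 g h, F2 _ (by rw [hXri, h]), inv_mul_cancel_right]
        · rw [B2 g h, F1 _ (by rw [hXti, h]; rfl), inv_mul_cancel_right] }
  have P1 : ∀ g, (ε g : ℤ) = 1 → fi g = g * t := F1
  have P2 : ∀ g, (ε g : ℤ) = -1 → fi g = g * r := F2
  have hup : ∀ g, XH ε h (h t + h r) (fi g) = XH ε h (h t + h r) g + 2 * (h t - h r) := by
    intro g
    rcases E_cases ε g with h1 | h1
    · rw [P1 g h1, XH_mul hD, h1]
      unfold XH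
      rw [hEt]
      ring
    · rw [P2 g h1, XH_mul hD, h1]
      unfold XH
      rw [hEr]
      ring
  have Q1 : ∀ (k : ℕ) (g : Γ), (ε g : ℤ) = 1 → (fi ^ (2 * k)) g = g * (t * r) ^ k := by
    intro k
    induction k with
    | zero => intro g _; simp
    | succ k ih =>
      intro g hg
      have e1 : (ε (g * t) : ℤ) = -1 := by rw [hXt, hg]
      have e2 : (ε (g * t * r) : ℤ) = 1 := by rw [hXr, e1]; rfl
      rw [show 2 * (k + 1) = 2 * k + 1 + 1 by ring, pow_succ, pow_succ, Equiv.Perm.mul_apply,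
        Equiv.Perm.mul_apply, P1 g hg, P2 _ e1, ih _ e2, pow_succ' (t * r) k]
      simp only [mul_assoc]
  have Q2 : ∀ (k : ℕ) (g : Γ), (ε g : ℤ) = -1 → (fi ^ (2 * k)) g = g * (r * t) ^ k := by
    intro k
    induction k with
    | zero => intro g _; simp
    | succ k ih =>
      intro g hg
      have e1 : (ε (g * r) : ℤ) = 1 := by rw [hXr, hg]; rfl
      have e2 : (ε (g * r * t) : ℤ) = -1 := by rw [hXt, e1]
      rw [show 2 * (k + 1) = 2 * k + 1 + 1 by ring, pow_succ, pow_succ, Equiv.Perm.mul_apply,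
        Equiv.Perm.mul_apply, P2 g hg, P1 _ e1, ih _ e2, pow_succ' (r * t) k]
      simp only [mul_assoc]
  refine fin_of hD _ _ fi hpos hup ?_
  intro n hn
  have hκ : 0 < Nat.card (KK hD) := by
    have := KK_fin hD
    exact Nat.card_pos
  have hεtr : ε (t * r) = 1 := by rw [map_mul, hεt, hεr]; rfl
  refine ⟨2 * (n ! * Nat.card (KK hD)), le_refl _, hpos,
    Nat.mul_pos (by omega) (Nat.mul_pos (Nat.factorial_pos n) hκ), hup, ?_,
    near_of hS hD _ _ hmax, ?_, conn_cay hS, ?_⟩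
  · intro g
    rcases E_cases ε g with h | h
    · rw [P1 g h]; exact cay_adj_mul hS g ht
    · rw [P2 g h]; exact cay_adj_mul hS g hr
  · intro g g'
    set M := n ! * Nat.card (KK hD) with hM
    have hrt : (r * t) ^ M = ((t * r) ^ M)⁻¹ := by
      have h1 := cl hD n hn (t * r) hεtr t
      rw [← hM, hEt, zpow_neg_one] at h1
      have h2 : ∀ k : ℕ, t * (r * t) ^ k = (t * r) ^ k * t := by
        intro k
        induction k with
        | zero => simp
        | succ k ih =>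
          rw [pow_succ, ← mul_assoc, ih, pow_succ]
          simp only [mul_assoc]
      rw [← h2 M] at h1
      exact mul_left_cancel h1
    have e : ∀ g : Γ, (fi ^ (2 * M)) g = lm hS ((t * r) ^ M) g := by
      intro g
      rw [lm_apply, cl hD n hn (t * r) hεtr g]
      rcases E_cases ε g with h | h
      · rw [Q1 M g h, h, zpow_one]
      · rw [Q2 M g h, h, zpow_neg_one, hrt]
    rw [e, e]
    exact ((lm hS _).map_rel_iff (a := g) (b := g')).symm
  · intro x z
    have hin : ∀ x : Γ, ∃ i : ℤ, (ε ((fi ^ i) x) : ℤ) = 1 := by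
      intro x
      rcases E_cases ε x with h | h
      · exact ⟨0, by rw [zpow_zero, Equiv.Perm.one_apply, h]⟩
      · exact ⟨1, by rw [zpow_one, P2 x h, hXr, h]; rfl⟩
    obtain ⟨i, hi⟩ := hin x
    obtain ⟨j, hj⟩ := hin z
    obtain ⟨w, hw⟩ : ∃ w : Γ, w = (fi ^ j) z * ((fi ^ i) x)⁻¹ := ⟨_, rfl⟩
    have hEw : (ε w : ℤ) = 1 := by rw [hw, E_mul, E_inv, hi, hj]; rfl
    have hcomm : ∀ g, lm hS w (fi g) = fi (lm hS w g) := by
      intro g
      rw [lm_apply, lm_apply]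
      rcases E_cases ε g with h | h
      · rw [P1 g h, P1 (w * g) (by rw [E_mul, hEw, h]; rfl), mul_assoc]
      · rw [P2 g h, P2 (w * g) (by rw [E_mul, hEw, h]; rfl), mul_assoc]
    have hcn : ∀ (k : ℕ) (g : Γ), lm hS w ((fi ^ k) g) = (fi ^ k) (lm hS w g) := by
      intro k
      induction k with
      | zero => intro g; simp
      | succ k ih =>
        intro g
        rw [pow_succ, Equiv.Perm.mul_apply, ih, hcomm, ← Equiv.Perm.mul_apply]
    have hcz : ∀ (k : ℤ) (g : Γ), lm hS w ((fi ^ k) g) = (fi ^ k) (lm hS w g) := by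
      intro k g
      rcases Int.eq_nat_or_neg k with ⟨l, rfl | rfl⟩
      · rw [zpow_natCast, hcn]
      · have h1 := hcn l ((fi ^ (-(l : ℤ))) g)
        rw [← zpow_natCast, ← Equiv.Perm.mul_apply, ← zpow_add, add_neg_cancel, zpow_zero,
          Equiv.Perm.one_apply] at h1
        rw [h1, ← Equiv.Perm.mul_apply, ← zpow_add, neg_add_cancel, zpow_zero,
          Equiv.Perm.one_apply]
    refine ⟨lm hS w, 1, 4 * h w, j - i, Or.inl rfl, ?_, ?_, ?_⟩
    · have h1 := hcz i x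
      have h2 : lm hS w ((fi ^ i) x) = (fi ^ j) z := by
        rw [lm_apply, hw, inv_mul_cancel_right]
      rw [h2] at h1
      have h3 : (fi ^ (-i)) ((fi ^ i) (lm hS w x)) = lm hS w x := by
        rw [← Equiv.Perm.mul_apply, ← zpow_add, neg_add_cancel, zpow_zero, Equiv.Perm.one_apply]
      rw [← h3, ← h1, ← Equiv.Perm.mul_apply, ← zpow_add]
      congr 2
      ring
    · intro g
      rw [zpow_one]
      exact hcomm g
    · intro g
      rw [lm_apply, XH_left hD, hEw]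

end

theorem dih : DihStmt.{u} := by
  intro Γ _ ε h S hD hS hfin
  have hRne : {u | u ∈ S ∧ ε u = -1}.Nonempty := by
    by_contra hne
    rw [Set.not_nonempty_iff_eq_empty] at hne
    obtain ⟨u, hu⟩ := hD.neg
    have h1 : Subgroup.closure S ≤ ε.ker := by
      rw [Subgroup.closure_le]
      intro v hv
      rcases Int.units_eq_one_or (ε v) with h2 | h2
      · exact h2
      · have : v ∈ {u | u ∈ S ∧ ε u = -1} := ⟨hv, h2⟩
        rw [hne] at this
        exact absurd this (Set.notMem_empty _)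
    rw [hS.1] at h1
    have h2 : ε u = 1 := h1 (Subgroup.mem_top u)
    rw [h2] at hu
    exact absurd hu (by decide)
  have hRf : {u | u ∈ S ∧ ε u = -1}.Finite := hfin.subset fun u hu => hu.1
  obtain ⟨t, ht, htm⟩ := Set.exists_max_image _ h hRf hRne
  obtain ⟨r, hr, hrm⟩ := Set.exists_min_image _ h hRf hRne
  have hSne : S.Nonempty := ⟨t, ht.1⟩
  obtain ⟨v, hv, hvm⟩ := Set.exists_max_image S
    (fun u => |XH ε h (h t + h r) u - (h t + h r)|) hfin hSne
  have hpos : 0 < |XH ε h (h t + h r) v - (h t + h r)| := by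
    by_contra hle
    have hz : ∀ u ∈ S, XH ε h (h t + h r) u = h t + h r := by
      intro u hu
      have h1 := hvm u hu
      have h2 : |XH ε h (h t + h r) u - (h t + h r)| = 0 :=
        le_antisymm (h1.trans (not_lt.1 hle)) (abs_nonneg _)
      have h3 := abs_eq_zero.1 h2
      omega
    have hall : ∀ g ∈ Subgroup.closure S, XH ε h (h t + h r) g = h t + h r := by
      intro g hg
      induction hg using Subgroup.closure_induction with
      | mem u hu => exact hz u hu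
      | one =>
        unfold XH
        rw [Dh.h1 hD, E_one]
        ring
      | mul a b _ _ iha ihb =>
        rw [XH_mul hD, iha, ihb]
        ring
      | inv a _ iha =>
        have h1 := XH_mul hD (h t + h r) a a⁻¹
        rw [mul_inv_cancel, iha] at h1
        have h2 : XH ε h (h t + h r) 1 = h t + h r := by
          unfold XH
          rw [Dh.h1 hD, E_one]
          ring
        rw [h2] at h1
        rcases E_cases ε a with h3 | h3 <;> rw [h3] at h1 <;> omega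
    obtain ⟨g, hg1, hg2⟩ := hD.unb
    have h1 := hall g (by rw [hS.1]; trivial)
    unfold XH at h1
    rw [(E_eq ε g).1 hg1] at h1
    apply hg2
    omega
  rcases Int.units_eq_one_or (ε v) with hεv | hεv
  · have hEv : (ε v : ℤ) = 1 := by rw [hεv]; rfl
    have e1 : XH ε h (h t + h r) v - (h t + h r) = 4 * h v := by
      unfold XH
      rw [hEv]
      ring
    rcases lt_or_ge 0 (h v) with h1 | h1
    · refine case1 hS hD (h t + h r) v hv hεv h1 ?_
      intro u hu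
      have h2 := hvm u hu
      simp only [e1] at h2
      rwa [abs_of_pos (by omega : (0 : ℤ) < 4 * h v)] at h2
    · have h0 : h v ≠ 0 := by
        intro h0
        rw [e1, h0] at hpos
        simp at hpos
      have hi : h v⁻¹ = - h v := by
        rw [Dh.hinv hD, hEv, one_mul]
      refine case1 hS hD (h t + h r) v⁻¹ (hS.2.1 _ hv) (by rw [map_inv, hεv, inv_one])
        (by rw [hi]; omega) ?_
      intro u hu
      have h2 := hvm u hu
      simp only [e1] at h2
      rw [abs_of_nonpos (by omega : 4 * h v ≤ 0)] at h2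
      rw [hi]
      omega
  · have hb : ∀ u, u ∈ S → ε u = -1 → |XH ε h (h t + h r) u - (h t + h r)| ≤ 2 * (h t - h r) := by
      intro u hu hεu
      have h1 := htm u ⟨hu, hεu⟩
      have h2 := hrm u ⟨hu, hεu⟩
      unfold XH
      rw [hεu, abs_le]
      push_cast
      constructor <;> omega
    have hbv := hb v hv hεv
    refine case2 hS hD t r ht.1 hr.1 ht.2 hr.2 (by omega) ?_
    intro u hu
    exact (hvm u hu).trans hbv

end Pool.Agent.Helper63.NW
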