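import Pool.Agent.Helper52.Wq2.Seq

set_option autoImplicit false

namespace Pool.Agent.Helper63.NW

open Pool.Agent.Helper52.Wq2

/-- The ladder with crossings in the pairs of lanes `2 i`, `2 i + 1`. -/
def XG (L : ℕ) : SimpleGraph (ℤ × Fin L) :=
  SimpleGraph.fromRel (fun a b => (b.1 = a.1 + 1 ∧ (a.2 : ℕ) / 2 = (b.2 : ℕ) / 2) ∨
    (a.1 = b.1 ∧ (b.2 : ℕ) = (a.2 : ℕ) + 1))

theorem xg_up {L : ℕ} {x : ℤ} {i j : Fin L} (h : (i : ℕ) / 2 = (j : ℕ) / 2) :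
    (XG L).Adj (x, i) (x + 1, j) := by
  unfold XG
  rw [SimpleGraph.fromRel_adj]
  refine ⟨?_, Or.inl (Or.inl ⟨rfl, h⟩)⟩
  intro he
  have := congrArg Prod.fst he
  simp at this

theorem xg_rt {L : ℕ} {x : ℤ} {i j : Fin L} (h : (j : ℕ) = (i : ℕ) + 1) :
    (XG L).Adj (x, i) (x, j) := by
  unfold XG
  rw [SimpleGraph.fromRel_adj]
  refine ⟨?_, Or.inl (Or.inr ⟨rfl, h⟩)⟩
  intro he
  have := congrArg Prod.snd he
  simp only at this
  rw [this] at h
  omega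

/-- The phase at time `x`. -/
def ph (Q : ℕ) (x : ℤ) : ℕ :=
  if (x % (2 * Q)).toNat ≤ Q then (x % (2 * Q)).toNat else 2 * Q - (x % (2 * Q)).toNat

theorem ph_le {Q : ℕ} (x : ℤ) (hQ : 0 < Q) : ph Q x ≤ Q := by
  unfold ph
  have h1 := Int.emod_nonneg x (show (2 * (Q : ℤ)) ≠ 0 by omega)
  have h2 := Int.emod_lt_of_pos x (show (0 : ℤ) < 2 * (Q : ℤ) by omega)
  split_ifs <;> omega

theorem ph_step {Q : ℕ} (x : ℤ) (hQ : 0 < Q) : ph Q (x + 1) = ph Q x + 1 ∨ ph Q x = ph Q (x + 1) + 1 := by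
  unfold ph
  have h1 := Int.emod_nonneg x (show (2 * (Q : ℤ)) ≠ 0 by omega)
  have h2 := Int.emod_lt_of_pos x (show (0 : ℤ) < 2 * (Q : ℤ) by omega)
  have h3 : (x + 1) % (2 * (Q : ℤ)) = x % (2 * Q) + 1 ∨
      (x % (2 * (Q : ℤ)) = 2 * Q - 1 ∧ (x + 1) % (2 * (Q : ℤ)) = 0) := by
    have hd := Int.emod_add_mul_ediv x (2 * (Q : ℤ))
    by_cases hc : x % (2 * (Q : ℤ)) = 2 * Q - 1
    · right
      refine ⟨hc, ?_⟩
      rw [show x + 1 = 2 * (Q : ℤ) * (x / (2 * (Q : ℤ)) + 1) by rw [mul_add]; omega]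
      exact Int.mul_emod_right _ _
    · left
      rw [show x + 1 = (x % (2 * (Q : ℤ)) + 1) + 2 * (Q : ℤ) * (x / (2 * (Q : ℤ))) by omega,
        Int.add_mul_emod_self_left]
      rw [Int.emod_eq_of_lt (by omega) (by omega)]
  rcases h3 with h3 | ⟨h3, h4⟩
  · rw [h3]
    split_ifs <;> omega
  · rw [h3, h4]
    split_ifs <;> omega

/-- The lane of leaf `i` at time `x`. -/
def lane (Q : ℕ) (i : Fin Q) (x : ℤ) : Fin (2 * Q) :=
  if ph Q x ≤ i then ⟨2 * i + 1, by omega⟩ else ⟨2 * i, by omega⟩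

theorem lane_pair {Q : ℕ} (i : Fin Q) (x : ℤ) : ((lane Q i x : Fin (2 * Q)) : ℕ) / 2 = i := by
  unfold lane
  split_ifs
  · show (2 * (i : ℕ) + 1) / 2 = i
    omega
  · show (2 * (i : ℕ)) / 2 = i
    omega

/-- The cells of the centre at time `x`. -/
def cen (Q : ℕ) (x : ℤ) : Set (ℤ × Fin (2 * Q)) :=
  {v | v.1 = x ∧ ((v.2 : ℕ) = 2 * ph Q x ∨ (v.2 : ℕ) + 1 = 2 * ph Q x)}

theorem cen_conn {Q : ℕ} (x : ℤ) (hQ : 0 < Q) : Conn (XG (2 * Q)) (cen Q x) := by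
  have hle := ph_le x hQ
  by_cases h0 : ph Q x = 0
  · have e : cen Q x = {((x, ⟨0, by omega⟩) : ℤ × Fin (2 * Q))} := by
      ext ⟨y, l⟩
      simp only [cen, Set.mem_setOf_eq, Set.mem_singleton_iff, Prod.mk.injEq, Fin.ext_iff, h0]
      constructor
      · rintro ⟨h1, h2⟩
        exact ⟨h1, by omega⟩
      · rintro ⟨h1, h2⟩
        exact ⟨h1, by omega⟩
    rw [e]
    exact conn_singleton _ _
  by_cases h1 : ph Q x = Q
  · have e : cen Q x = {((x, ⟨2 * Q - 1, by omega⟩) : ℤ × Fin (2 * Q))} := by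
      ext ⟨y, l⟩
      simp only [cen, Set.mem_setOf_eq, Set.mem_singleton_iff, Prod.mk.injEq, Fin.ext_iff, h1]
      have := l.2
      constructor
      · rintro ⟨h1, h2⟩
        exact ⟨h1, by omega⟩
      · rintro ⟨h1, h2⟩
        exact ⟨h1, by omega⟩
    rw [e]
    exact conn_singleton _ _
  · have e : cen Q x = {((x, ⟨2 * ph Q x - 1, by omega⟩) : ℤ × Fin (2 * Q))} ∪
        {((x, ⟨2 * ph Q x, by omega⟩) : ℤ × Fin (2 * Q))} := by
      ext ⟨y, l⟩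
      simp only [cen, Set.mem_setOf_eq, Set.mem_union, Set.mem_singleton_iff, Prod.mk.injEq,
        Fin.ext_iff]
      constructor
      · rintro ⟨h1, h2 | h2⟩
        · exact Or.inr ⟨h1, by omega⟩
        · exact Or.inl ⟨h1, by omega⟩
      · rintro (⟨h1, h2⟩ | ⟨h1, h2⟩)
        · exact ⟨h1, by omega⟩
        · exact ⟨h1, by omega⟩
    rw [e]
    refine (conn_singleton _ _).union (conn_singleton _ _) rfl rfl (xg_rt ?_)
    show 2 * ph Q x = 2 * ph Q x - 1 + 1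
    omega

theorem cen_step {Q : ℕ} (x : ℤ) (hQ : 0 < Q) :
    ∃ a ∈ cen Q x, ∃ b ∈ cen Q (x + 1), (XG (2 * Q)).Adj a b := by
  have hle := ph_le x hQ
  have hle' := ph_le (x + 1) hQ
  rcases ph_step x hQ with h | h
  · refine ⟨(x, ⟨2 * ph Q x, by omega⟩), ⟨rfl, Or.inl rfl⟩,
      (x + 1, ⟨2 * ph Q x + 1, by omega⟩), ⟨rfl, Or.inr ?_⟩, xg_up ?_⟩
    · show 2 * ph Q x + 1 + 1 = 2 * ph Q (x + 1)
      omega
    · show (2 * ph Q x) / 2 = (2 * ph Q x + 1) / 2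
      omega
  · refine ⟨(x, ⟨2 * ph Q (x + 1) + 1, by omega⟩), ⟨rfl, Or.inr ?_⟩,
      (x + 1, ⟨2 * ph Q (x + 1), by omega⟩), ⟨rfl, Or.inl rfl⟩, xg_up ?_⟩
    · show 2 * ph Q (x + 1) + 1 + 1 = 2 * ph Q x
      omega
    · show (2 * ph Q (x + 1) + 1) / 2 = (2 * ph Q (x + 1)) / 2
      omega

theorem ph_window {Q : ℕ} (hQ : 0 < Q) (z : ℤ) (i : Fin Q) : ph Q (2 * Q * z + i) = i := by
  unfold ph
  have h : (2 * (Q : ℤ) * z + i) % (2 * (Q : ℤ)) = i := by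
    rw [add_comm, Int.add_mul_emod_self_left]
    exact Int.emod_eq_of_lt (by omega) (by have := i.2; omega)
  rw [h]
  have := i.2
  rw [if_pos (by omega)]
  simp

/-- The star times line is a minor of the ladder with crossings. -/
theorem star_xg {Q : ℕ} (hQ : 0 < Q) : Mn (StarZ (Fin Q)) (XG (2 * Q)) := by
  have hin : ∀ (z : ℤ) (k : ℕ), k < 2 * Q → (2 * (Q : ℤ) * z ≤ 2 * Q * z + k ∧
      2 * (Q : ℤ) * z + k < 2 * Q * (z + 1)) := by
    intro z k hk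
    rw [mul_add]
    omega
  refine ⟨fun v => match v.2 with
    | none => {c | ∃ k, k ≤ 2 * Q - 1 ∧ c ∈ cen Q (2 * Q * v.1 + (k : ℕ))}
    | some i => {c | ∃ x, (2 * Q * v.1 ≤ x ∧ x < 2 * Q * (v.1 + 1)) ∧ (x, lane Q i x) = c},
    ?_, ?_, ?_⟩
  · rintro ⟨z, _ | i⟩
    · refine conn_chain (fun k : ℕ => cen Q (2 * Q * z + (k : ℕ))) (2 * Q - 1)
        (fun k _ => cen_conn _ hQ) (fun k _ => ?_)
      have := cen_step (2 * (Q : ℤ) * z + (k : ℕ)) hQ
      have e : (2 * (Q : ℤ) * z + ((k + 1 : ℕ) : ℤ)) = 2 * Q * z + (k : ℕ) + 1 := by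
        push_cast; ring
      simp only [e]
      exact this
    · refine conn_line (fun x => (x, lane Q i x)) (fun x => 2 * Q * z ≤ x ∧ x < 2 * Q * (z + 1))
        (2 * Q * z) ⟨le_refl _, by rw [mul_add]; omega⟩ ?_ ?_ ?_
      · intro x h1 h2
        exact ⟨h1, by omega⟩
      · intro x h1 h2
        exact absurd h2.1 (by omega)
      · intro x h1 h2
        refine xg_up ?_
        rw [lane_pair, lane_pair]
  · have cc : ∀ (z w : ℤ) (c : ℤ × Fin (2 * Q)),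
        (∃ k, k ≤ 2 * Q - 1 ∧ c ∈ cen Q (2 * Q * z + (k : ℕ))) →
        (∃ k, k ≤ 2 * Q - 1 ∧ c ∈ cen Q (2 * Q * w + (k : ℕ))) → z = w := by
      rintro z w c ⟨k, hk, hc⟩ ⟨k', hk', hc'⟩
      have e1 := hc.1
      have e2 := hc'.1
      rw [e1] at e2
      by_contra hne
      rcases lt_or_gt_of_ne hne with h | h
      · have : 2 * (Q : ℤ) * (z + 1) ≤ 2 * Q * w := by
          apply mul_le_mul_of_nonneg_left <;> omega
        rw [mul_add] at this
        omega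
      · have : 2 * (Q : ℤ) * (w + 1) ≤ 2 * Q * z := by
          apply mul_le_mul_of_nonneg_left <;> omega
        rw [mul_add] at this
        omega
    have cl : ∀ (z w : ℤ) (i : Fin Q) (c : ℤ × Fin (2 * Q)),
        (∃ k, k ≤ 2 * Q - 1 ∧ c ∈ cen Q (2 * Q * z + (k : ℕ))) →
        (∃ x, (2 * Q * w ≤ x ∧ x < 2 * Q * (w + 1)) ∧ (x, lane Q i x) = c) → False := by
      rintro z w i c ⟨k, hk, hc⟩ ⟨x, hx, rfl⟩
      have e1 : x = 2 * Q * z + (k : ℕ) := hc.1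
      rw [← e1] at hc
      have h2 := hc.2
      simp only [lane] at h2
      split_ifs at h2 with h
      · rcases h2 with h2 | h2
        · have : 2 * (i : ℕ) + 1 = 2 * ph Q x := h2
          omega
        · have : 2 * (i : ℕ) + 1 + 1 = 2 * ph Q x := h2
          omega
      · rcases h2 with h2 | h2
        · have : 2 * (i : ℕ) = 2 * ph Q x := h2
          omega
        · have : 2 * (i : ℕ) + 1 = 2 * ph Q x := h2
          omega
    have ll : ∀ (z w : ℤ) (i j : Fin Q) (c : ℤ × Fin (2 * Q)),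
        (∃ x, (2 * Q * z ≤ x ∧ x < 2 * Q * (z + 1)) ∧ (x, lane Q i x) = c) →
        (∃ x, (2 * Q * w ≤ x ∧ x < 2 * Q * (w + 1)) ∧ (x, lane Q j x) = c) → z = w ∧ i = j := by
      rintro z w i j c ⟨x, hx, rfl⟩ ⟨y, hy, he⟩
      have e1 : y = x := congrArg Prod.fst he
      have e2 : lane Q j y = lane Q i x := congrArg Prod.snd he
      subst e1
      constructor
      · by_contra hne
        rcases lt_or_gt_of_ne hne with h | h
        · have : 2 * (Q : ℤ) * (z + 1) ≤ 2 * Q * w := by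
            apply mul_le_mul_of_nonneg_left <;> omega
          omega
        · have : 2 * (Q : ℤ) * (w + 1) ≤ 2 * Q * z := by
            apply mul_le_mul_of_nonneg_left <;> omega
          omega
      · have h1 := lane_pair i y
        have h2 := lane_pair j y
        rw [e2, h1] at h2
        exact Fin.ext h2
    rintro ⟨z, _ | i⟩ ⟨w, _ | j⟩ c h1 h2
    · rw [cc z w c h1 h2]
    · exact (cl z w j c h1 h2).elim
    · exact (cl w z i c h2 h1).elim
    · obtain ⟨e1, e2⟩ := ll z w i j c h1 h2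
      rw [e1, e2]
  · have sp : ∀ (z : ℤ) (i : Fin Q), ∃ a ∈ {c | ∃ k, k ≤ 2 * Q - 1 ∧ c ∈ cen Q (2 * Q * z + (k : ℕ))},
        ∃ b ∈ {c | ∃ x, (2 * Q * z ≤ x ∧ x < 2 * Q * (z + 1)) ∧ (x, lane Q i x) = c},
        (XG (2 * Q)).Adj a b := by
      intro z i
      have hi := i.2
      have hp := ph_window hQ z i
      refine ⟨(2 * Q * z + (i : ℕ), ⟨2 * i, by omega⟩), ⟨i, by omega, rfl, Or.inl ?_⟩,
        (2 * Q * z + (i : ℕ), lane Q i (2 * Q * z + (i : ℕ))),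
        ⟨_, hin z i (by omega), rfl⟩, xg_rt ?_⟩
      · rw [hp]
      · unfold lane
        rw [hp, if_pos (le_refl _)]
    have up : ∀ (z : ℤ), ∃ a ∈ {c | ∃ k, k ≤ 2 * Q - 1 ∧ c ∈ cen Q (2 * Q * z + (k : ℕ))},
        ∃ b ∈ {c | ∃ k, k ≤ 2 * Q - 1 ∧ c ∈ cen Q (2 * Q * (z + 1) + (k : ℕ))},
        (XG (2 * Q)).Adj a b := by
      intro z
      obtain ⟨a, ha, b, hb, hab⟩ := cen_step (2 * (Q : ℤ) * z + ((2 * Q - 1 : ℕ) : ℤ)) hQ
      refine ⟨a, ⟨2 * Q - 1, le_refl _, ha⟩, b, ⟨0, by omega, ?_⟩, hab⟩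
      have e : (2 * (Q : ℤ) * z + ((2 * Q - 1 : ℕ) : ℤ)) + 1 = 2 * Q * (z + 1) + ((0 : ℕ) : ℤ) := by
        rw [mul_add]; omega
      rw [← e]
      exact hb
    have lu : ∀ (z : ℤ) (i : Fin Q),
        ∃ a ∈ {c | ∃ x, (2 * Q * z ≤ x ∧ x < 2 * Q * (z + 1)) ∧ (x, lane Q i x) = c},
        ∃ b ∈ {c | ∃ x, (2 * Q * (z + 1) ≤ x ∧ x < 2 * Q * ((z + 1) + 1)) ∧ (x, lane Q i x) = c},
        (XG (2 * Q)).Adj a b := by
      intro z i
      refine ⟨(2 * Q * (z + 1) - 1, lane Q i (2 * Q * (z + 1) - 1)), ⟨_, ?_, rfl⟩,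
        (2 * Q * (z + 1) - 1 + 1, lane Q i (2 * Q * (z + 1) - 1 + 1)), ⟨_, ?_, rfl⟩, xg_up ?_⟩
      · rw [mul_add]; omega
      · rw [mul_add (2 * (Q : ℤ)) (z + 1) 1]; omega
      · rw [lane_pair, lane_pair]
    rintro ⟨x, o⟩ ⟨y, o'⟩ hadj
    unfold StarZ at hadj
    rw [SimpleGraph.fromRel_adj] at hadj
    obtain ⟨hne, (⟨h1, h2⟩ | ⟨h1, h2⟩) | (⟨h1, h2⟩ | ⟨h1, h2⟩)⟩ := hadj
    · simp only at h1 h2
      subst h1 h2
      rcases o with _ | i
      · exact up x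
      · exact lu x i
    · simp only at h1 h2
      subst h1 h2
      rcases o' with _ | i
      · exact absurd rfl hne
      · exact sp x i
    · simp only at h1 h2
      subst h1 h2
      rcases o' with _ | i
      · obtain ⟨a, ha, b, hb, hab⟩ := up y
        exact ⟨b, hb, a, ha, hab.symm⟩
      · obtain ⟨a, ha, b, hb, hab⟩ := lu y i
        exact ⟨b, hb, a, ha, hab.symm⟩
    · simp only at h1 h2
      subst h1 h2
      rcases o with _ | i
      · exact absurd rfl hne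
      · obtain ⟨a, ha, b, hb, hab⟩ := sp y i
        exact ⟨b, hb, a, ha, hab.symm⟩

/-- Fewer leaves. -/
theorem star_mono (q : ℕ) : Mn (StarZ (Fin q)) (StarZ (Fin (q + 1))) := by
  refine Mn.of_inj (fun v => (v.1, v.2.map Fin.castSucc)) ?_ ?_
  · rintro ⟨x, o⟩ ⟨y, o'⟩ h
    have h1 : x = y := congrArg Prod.fst h
    have h2 : o.map Fin.castSucc = o'.map Fin.castSucc := congrArg Prod.snd h
    rw [h1, Option.map_injective (Fin.castSucc_injective q) h2]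
  · rintro ⟨x, o⟩ ⟨y, o'⟩ hadj
    unfold StarZ at hadj ⊢
    rw [SimpleGraph.fromRel_adj] at hadj ⊢
    refine ⟨?_, ?_⟩
    · intro h
      apply hadj.1
      have h1 : x = y := congrArg Prod.fst h
      have h2 : o.map Fin.castSucc = o'.map Fin.castSucc := congrArg Prod.snd h
      rw [h1, Option.map_injective (Fin.castSucc_injective q) h2]
    · rcases hadj.2 with (⟨h1, h2⟩ | ⟨h1, h2⟩) | (⟨h1, h2⟩ | ⟨h1, h2⟩)
      · simp only at h1 h2
        exact Or.inl (Or.inl ⟨by simp [h1], h2⟩)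
      · simp only at h1 h2
        exact Or.inl (Or.inr ⟨h1, by simp [h2]⟩)
      · simp only at h1 h2
        exact Or.inr (Or.inl ⟨by simp [h1], h2⟩)
      · simp only at h1 h2
        exact Or.inr (Or.inr ⟨h1, by simp [h2]⟩)

end Pool.Agent.Helper63.NW
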