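import Pool.Agent.Helper63.NW.XA

set_option autoImplicit false

namespace Pool.Agent.Helper63.NW

open Pool.Agent.Helper52.Wq2

/-- Ladder data. -/
structure Lad {V : Type*} (G : SimpleGraph V) (L : ℕ) (m : ℤ) (f : ℕ → ℤ → V) (c : ℕ → ℤ) :
    Prop where
  mpos : 0 < m
  inj : ∀ j j' x x', j < L → j' < L → f j x = f j' x' → j = j' ∧ x = x'
  line : ∀ j x, j < L → G.Adj (f j x) (f j (x + 1))
  con : ∀ j, j + 1 < L → ∃ a d : ℤ, -1 ≤ d ∧ d ≤ 1 ∧ ∀ k : ℤ,
    G.Adj (f j (a + m * k)) (f (j + 1) (a + d + m * k))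
  c0 : ∀ i, 0 ≤ c i
  cm : ∀ i, c i < m
  crs : ∀ i, 2 * i + 1 < L → ∀ k : ℤ,
    G.Adj (f (2 * i) (c i + m * k)) (f (2 * i + 1) (c i + 1 + m * k)) ∧
    G.Adj (f (2 * i) (c i + 1 + m * k)) (f (2 * i + 1) (c i + m * k))

theorem Lad.mn {V : Type*} {G : SimpleGraph V} {Q : ℕ} {m : ℤ} {f : ℕ → ℤ → V} {c : ℕ → ℤ}
    (h : Lad G (2 * Q) m f c) : Mn (XG (2 * Q)) G := by
  have hm := h.mpos
  refine ⟨fun v => {w | ∃ p, (c ((v.2 : ℕ) / 2) + 4 * m * (v.1 - 1) < p ∧
    p ≤ c ((v.2 : ℕ) / 2) + 4 * m * v.1) ∧ f v.2 p = w}, ?_, ?_, ?_⟩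
  · rintro ⟨x, j⟩
    refine conn_line (f j) (fun p => c ((j : ℕ) / 2) + 4 * m * (x - 1) < p ∧
      p ≤ c ((j : ℕ) / 2) + 4 * m * x) (c ((j : ℕ) / 2) + 4 * m * x) ⟨?_, le_refl _⟩ ?_ ?_ ?_
    · have : 4 * m * (x - 1) = 4 * m * x - 4 * m := by ring
      rw [this]; omega
    · rintro p h1 ⟨h2, h3⟩
      omega
    · rintro p h1 ⟨h2, h3⟩
      exact ⟨by omega, h1⟩
    · intro p _ _
      exact h.line j p j.2
  · rintro ⟨x, i⟩ ⟨y, j⟩ w ⟨p, hp, rfl⟩ ⟨p', hp', he⟩
    obtain ⟨h1, h2⟩ := h.inj _ _ _ _ j.2 i.2 he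
    simp only at hp hp' h1 h2
    have hij : i = j := Fin.ext h1.symm
    subst hij
    subst h2
    have hxy : x = y := by
      by_contra hne
      rcases lt_or_gt_of_ne hne with hlt | hlt
      · have : 4 * m * x ≤ 4 * m * (y - 1) := by
          apply mul_le_mul_of_nonneg_left <;> omega
        omega
      · have : 4 * m * y ≤ 4 * m * (x - 1) := by
          apply mul_le_mul_of_nonneg_left <;> omega
        omega
    rw [hxy]
  · have key : ∀ (x y : ℤ) (i j : Fin (2 * Q)),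
        ((y = x + 1 ∧ (i : ℕ) / 2 = (j : ℕ) / 2) ∨ (x = y ∧ (j : ℕ) = (i : ℕ) + 1)) →
        ∃ a ∈ {w | ∃ p, (c ((i : ℕ) / 2) + 4 * m * (x - 1) < p ∧
            p ≤ c ((i : ℕ) / 2) + 4 * m * x) ∧ f i p = w},
          ∃ b ∈ {w | ∃ p, (c ((j : ℕ) / 2) + 4 * m * (y - 1) < p ∧
            p ≤ c ((j : ℕ) / 2) + 4 * m * y) ∧ f j p = w}, G.Adj a b := by
      intro x y i j hd
      rcases hd with ⟨rfl, h2⟩ | ⟨rfl, h2⟩
      · have e1 : 4 * m * (x + 1) = 4 * m * x + 4 * m := by ring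
        have e2 : 4 * m * (x - 1) = 4 * m * x - 4 * m := by ring
        have e3 : 4 * m * (x + 1 - 1) = 4 * m * x := by ring
        refine ⟨f i (c ((i : ℕ) / 2) + 4 * m * x), ⟨_, ⟨by rw [e2]; omega, le_refl _⟩, rfl⟩,
          f j (c ((i : ℕ) / 2) + 4 * m * x + 1), ⟨_, ⟨?_, ?_⟩, rfl⟩, ?_⟩
        · rw [e3, ← h2]; omega
        · rw [e1, ← h2]; omega
        · have e4 : c ((i : ℕ) / 2) + 4 * m * x = c ((i : ℕ) / 2) + m * (4 * x) := by ring
          have e5 : c ((i : ℕ) / 2) + 4 * m * x + 1 = c ((i : ℕ) / 2) + 1 + m * (4 * x) := by ring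
          have hi := i.2
          have hj := j.2
          rcases Nat.mod_two_eq_zero_or_one (i : ℕ) with hi2 | hi2 <;>
          rcases Nat.mod_two_eq_zero_or_one (j : ℕ) with hj2 | hj2
          · have : (j : ℕ) = i := by omega
            rw [this]
            exact h.line _ _ hi
          · have h3 := (h.crs ((i : ℕ) / 2) (by omega) (4 * x)).1
            rw [show 2 * ((i : ℕ) / 2) = (i : ℕ) by omega] at h3
            rw [show (j : ℕ) = i + 1 by omega, e4, ← e4, e5, e4]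
            exact h3
          · have h3 := (h.crs ((i : ℕ) / 2) (by omega) (4 * x)).2
            rw [show 2 * ((i : ℕ) / 2) = (j : ℕ) by omega, show (j : ℕ) + 1 = i by omega] at h3
            rw [e5, e4]
            exact h3.symm
          · have : (j : ℕ) = i := by omega
            rw [this]
            exact h.line _ _ hi
      · obtain ⟨a, d, hd1, hd2, hcon⟩ := h.con i (by have := j.2; omega)
        set b := 4 * m * (x - 1) + m + 1 with hb
        have hr0 := Int.emod_nonneg (a - b) (show m ≠ 0 by omega)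
        have hr1 := Int.emod_lt_of_pos (a - b) hm
        have hr2 := Int.emod_add_mul_ediv (a - b) m
        have hk := hcon (-((a - b) / m))
        have e1 : a + m * -((a - b) / m) = b + (a - b) % m := by
          have : m * -((a - b) / m) = - (m * ((a - b) / m)) := by ring
          rw [this]; omega
        have e2 : a + d + m * -((a - b) / m) = b + (a - b) % m + d := by
          have : m * -((a - b) / m) = - (m * ((a - b) / m)) := by ring
          rw [this]; omega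
        rw [e1, e2] at hk
        have c1 := h.c0 ((i : ℕ) / 2)
        have c2 := h.cm ((i : ℕ) / 2)
        have c3 := h.c0 ((j : ℕ) / 2)
        have c4 := h.cm ((j : ℕ) / 2)
        have e3 : 4 * m * (x - 1) = 4 * m * x - 4 * m := by ring
        refine ⟨_, ⟨b + (a - b) % m, ⟨by omega, by omega⟩, rfl⟩, _,
          ⟨b + (a - b) % m + d, ⟨by omega, by omega⟩, rfl⟩, ?_⟩
        rw [h2]
        exact hk
    rintro ⟨x, i⟩ ⟨y, j⟩ hadj
    unfold XG at hadj
    rw [SimpleGraph.fromRel_adj] at hadj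
    rcases hadj.2 with h1 | h1
    · exact key x y i j h1
    · obtain ⟨a, ha, b, hb, hab⟩ := key y x j i h1
      exact ⟨b, hb, a, ha, hab.symm⟩

end Pool.Agent.Helper63.NW
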